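import Pool.Agent.U705.RC.Bef

set_option autoImplicit false

open Pool.Agent.R795.Min

namespace Pool.Agent.U394.RC

open Pool.Agent.U705.RC

section

variable {A B : Type} [DecidableEq A] {N : ℕ} {F : Multiset A → List A → B}

theorem rotE (hR : InvRot N F) : ∀ s1 s2 : List A, E N F (s1 ++ s2) (s2 ++ s1) := by
  intro s1
  induction s1 with
  | nil => intro s2; rw [List.nil_append, List.append_nil]; exact E.refl _
  | cons x s1 ih =>
    intro s2
    have h1 : E N F (x :: (s1 ++ s2)) ((s1 ++ s2) ++ [x]) := hR x (s1 ++ s2)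
    have h2 : E N F (s1 ++ (s2 ++ [x])) ((s2 ++ [x]) ++ s1) := ih (s2 ++ [x])
    rw [List.append_assoc] at h1
    have h3 := E.trans h1 (by
      have : (x :: (s1 ++ s2)).Perm ((s1 ++ s2) ++ [x]) := (List.perm_append_singleton x _).symm
      rwa [List.append_assoc] at this) h2
    rw [List.append_assoc] at h3
    exact h3

theorem card_content' (a : Fin N → A) : Multiset.card (content a) = N := by
  simp [content]

/-- rotation of the list of positions -/
theorem Ch.rot {g : (Fin N → A) → B} (hR : InvRot N F) {l1 l2 : List (Fin N)}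
    (h : Ch F g (l1 ++ l2)) : Ch F g (l2 ++ l1) := by
  intro a u hu hv
  rw [List.sublist_append_iff] at hu
  obtain ⟨u2, u1, rfl, h2, h1⟩ := hu
  have hp : (u1 ++ u2).Perm (u2 ++ u1) := List.perm_append_comm
  have hv' : Val (content a) ((u1 ++ u2).map a) := hv.perm (hp.symm.map a)
  rw [h a (u1 ++ u2) (h1.append h2) hv']
  have := rotE hR (u1.map a) (u2.map a) (content a) (card_content' a)
    (by rw [← List.map_append]; exact hv')
  rw [List.map_append, List.map_append]
  exact this

/-- reversal of the list of positions -/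
theorem Ch.rev {g : (Fin N → A) → B} (hR : InvRev N F) {l : List (Fin N)}
    (h : Ch F g l) : Ch F g l.reverse := by
  intro a u hu hv
  have h1 : u.reverse.Sublist l := by
    have := hu.reverse
    rwa [List.reverse_reverse] at this
  have hv' : Val (content a) (u.reverse.map a) := hv.perm ((List.reverse_perm u).symm.map a)
  rw [h a u.reverse h1 hv']
  have := hR (u.reverse.map a) (content a) (card_content' a) hv'
  rw [this, ← List.map_reverse, List.reverse_reverse]

end

theorem rot_decomp {P : Type} {l l' : List P} (h : l.IsRotated l') :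
    ∃ a b, l = a ++ b ∧ l' = b ++ a := by
  obtain ⟨n, rfl⟩ := h
  exact ⟨l.take (n % l.length), l.drop (n % l.length), (List.take_append_drop _ _).symm,
    List.rotate_eq_drop_append_take_mod⟩

theorem rot_cons_eq {P : Type} {z : P} {w w' : List P} (hn : (z :: w).Nodup)
    (h : (z :: w).IsRotated (z :: w')) : w = w' := by
  obtain ⟨a, b, h1, h2⟩ := rot_decomp h
  rcases a with _ | ⟨c, a⟩
  · rw [List.nil_append] at h1
    rw [List.append_nil, ← h1] at h2
    simpa using h2.symm
  · rcases b with _ | ⟨d, b⟩
    · rw [List.append_nil] at h1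
      rw [List.nil_append, ← h1] at h2
      simpa using h2.symm
    · rw [List.cons_append, List.cons.injEq] at h1 h2
      obtain ⟨rfl, h1⟩ := h1
      obtain ⟨rfl, h2⟩ := h2
      rw [h1] at hn
      exact absurd (by simp) (List.nodup_cons.mp hn).1

theorem two_sublist {P : Type} {w : List P} {x y : P} (hn : w.Nodup) (hx : x ∈ w) (hy : y ∈ w)
    (hxy : x ≠ y) : [x, y].Sublist w ∨ [y, x].Sublist w := by
  obtain ⟨l, r, rfl⟩ := List.append_of_mem hx
  rcases List.mem_append.mp hy with h | h
  · exact Or.inr ((bef_left hn).mpr h)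
  · rcases List.mem_cons.mp h with h | h
    · exact absurd h.symm hxy
    · exact Or.inl ((bef_right hn).mpr h)

theorem length_of_mem {N : ℕ} {l : List (Fin N)} {S : Finset (Fin N)} (hn : l.Nodup)
    (h : ∀ x, x ∈ l ↔ x ∉ S) : l.length = N - S.card := by
  classical
  have h1 : l.toFinset = Finset.univ \ S := by
    ext x
    simp [h x]
  rw [← List.toFinset_card_of_nodup hn, h1, Finset.card_sdiff_of_subset (Finset.subset_univ _),
    Finset.card_univ, Fintype.card_fin]

theorem t_BDATA : S_BETA → S_C2E → S_GLUE → S_BDATA := by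
  intro hBETA hC2E hGLUE k
  obtain ⟨nB, hB⟩ := hBETA k
  refine ⟨nB + 2 * k + 20, ?_⟩
  intro A B _ _ hA N F g hN hRot hAll hCh
  have hAk : Fintype.card A = k := hA
  -- the points and the pairs
  set z : Fin N := ⟨0, by omega⟩ with hz
  set x : Fin N := ⟨1, by omega⟩ with hx
  set y : Fin N := ⟨2, by omega⟩ with hy
  set I : Fin (Fintype.card A + 4) → Finset (Fin N) := fun i =>
    {⟨3 + 2 * i.1, by have := i.2; omega⟩, ⟨4 + 2 * i.1, by have := i.2; omega⟩} with hI
  have hImem : ∀ i p, p ∈ I i ↔ p.1 = 3 + 2 * i.1 ∨ p.1 = 4 + 2 * i.1 := by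
    intro i p
    simp [hI, Fin.ext_iff]
  have hIcard : ∀ i, (I i).card = 2 := by
    intro i
    simp only [hI]
    rw [Finset.card_pair]
    simp only [ne_eq, Fin.mk.injEq]
    omega
  have hIdisj : ∀ i j, i ≠ j → Disjoint (I i) (I j) := by
    intro i j hij
    rw [Finset.disjoint_left]
    intro p h1 h2
    rw [hImem] at h1 h2
    have : i.1 ≠ j.1 := fun h => hij (Fin.ext h)
    omega
  have hzI : ∀ i, z ∉ I i := by
    intro i h
    rw [hImem] at h
    simp only [hz] at h
    omega
  have hxI : ∀ i, x ∉ I i := by
    intro i h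
    rw [hImem] at h
    simp only [hx] at h
    omega
  have hyI : ∀ i, y ∉ I i := by
    intro i h
    rw [hImem] at h
    simp only [hy] at h
    omega
  have hxz : x ≠ z := by simp [hx, hz, Fin.ext_iff]
  have hyz : y ≠ z := by simp [hy, hz, Fin.ext_iff]
  have hxy : x ≠ y := by simp [hx, hy, Fin.ext_iff]
  -- the lists
  have hw : ∀ i, ∃ w : List (Fin N), (z :: w).Nodup ∧ (∀ p, p ∈ z :: w ↔ p ∉ I i) ∧
      Ch F g (z :: w) ∧ (InvRev N F → [x, y].Sublist w) := by
    intro i
    obtain ⟨σ, hσn, hσm, hσc⟩ := hCh (I i) (hIcard i)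
    obtain ⟨l, r, rfl⟩ := List.append_of_mem ((hσm z).mpr (hzI i))
    have hp : (l ++ z :: r).Perm (z :: (r ++ l)) := by
      have h1 : (l ++ z :: r).Perm ((z :: r) ++ l) := List.perm_append_comm
      simpa using h1
    have hn1 : (z :: (r ++ l)).Nodup := hp.nodup_iff.mp hσn
    have hm1 : ∀ p, p ∈ z :: (r ++ l) ↔ p ∉ I i := fun p => by rw [← hp.mem_iff]; exact hσm p
    have hc1 : Ch F g (z :: (r ++ l)) := by
      have := Ch.rot hRot hσc
      simpa using this
    have hxw : x ∈ r ++ l := by
      rcases List.mem_cons.mp ((hm1 x).mpr (hxI i)) with h | h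
      · exact absurd h hxz
      · exact h
    have hyw : y ∈ r ++ l := by
      rcases List.mem_cons.mp ((hm1 y).mpr (hyI i)) with h | h
      · exact absurd h hyz
      · exact h
    by_cases hrev : InvRev N F
    · rcases two_sublist (List.nodup_cons.mp hn1).2 hxw hyw hxy with h | h
      · exact ⟨r ++ l, hn1, hm1, hc1, fun _ => h⟩
      · have hp2 : (z :: (r ++ l)).Perm (z :: (r ++ l).reverse) :=
          ((List.reverse_perm _).symm).cons z
        refine ⟨(r ++ l).reverse, hp2.nodup_iff.mp hn1, fun p => by rw [← hp2.mem_iff]; exact hm1 p,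
          ?_, fun _ => ?_⟩
        · have h3 := Ch.rev hrev hc1
          rw [List.reverse_cons] at h3
          have h4 := Ch.rot hRot h3
          simpa using h4
        · have := h.reverse
          simpa using this
    · exact ⟨r ++ l, hn1, hm1, hc1, fun h => absurd h hrev⟩
  choose w hwn hwm hwc hwr using hw
  have hfilt : ∀ i j, i ≠ j → (z :: w i).filter (fun p => p ∉ I j) =
      (z :: w j).filter (fun p => p ∉ I i) := by
    intro i j hij
    have hfi : (z :: w i).filter (fun p => p ∉ I j) = z :: (w i).filter (fun p => p ∉ I j) :=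
      List.filter_cons_of_pos (by simpa using hzI j)
    have hfj : (z :: w j).filter (fun p => p ∉ I i) = z :: (w j).filter (fun p => p ∉ I i) :=
      List.filter_cons_of_pos (by simpa using hzI i)
    have hni : ((z :: w i).filter (fun p => p ∉ I j)).Nodup := (hwn i).filter _
    have hnj : ((z :: w j).filter (fun p => p ∉ I i)).Nodup := (hwn j).filter _
    have hmi : ∀ p, p ∈ (z :: w i).filter (fun p => p ∉ I j) ↔ p ∉ I i ∪ I j := by
      intro p
      rw [List.mem_filter, hwm i p]
      simp
    have hmj : ∀ p, p ∈ (z :: w j).filter (fun p => p ∉ I i) ↔ p ∉ I i ∪ I j := by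
      intro p
      rw [List.mem_filter, hwm j p]
      simp [and_comm]
    have hperm : ((z :: w i).filter (fun p => p ∉ I j)).Perm
        ((z :: w j).filter (fun p => p ∉ I i)) :=
      (List.perm_ext_iff_of_nodup hni hnj).mpr fun p => by rw [hmi, hmj]
    have hci : Ch F g ((z :: w i).filter (fun p => p ∉ I j)) :=
      (hwc i).mono List.filter_sublist
    have hcj : Ch F g ((z :: w j).filter (fun p => p ∉ I i)) :=
      (hwc j).mono List.filter_sublist
    have hE := hC2E A B N F g _ _ hni hci hcj
    have hlen : nB ≤ ((z :: w i).filter (fun p => p ∉ I j)).length := by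
      rw [length_of_mem hni hmi, Finset.card_union_of_disjoint (hIdisj i j hij), hIcard, hIcard]
      omega
    have hB' := hB A B hAk N F hRot hAll (Fin N) _ _ hni hnj hperm hlen hE
    rw [hfi, hfj] at hB'
    rw [hfi] at hni
    rw [hfi, hfj]
    congr 1
    rcases hB' with h | ⟨hrev, h⟩
    · exact rot_cons_eq hni h
    · exfalso
      rw [List.reverse_cons] at h
      have h2 : (z :: (w i).filter (fun p => p ∉ I j)).IsRotated
          (z :: ((w j).filter (fun p => p ∉ I i)).reverse) := by
        refine h.trans ?_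
        have : (((w j).filter (fun p => p ∉ I i)).reverse ++ [z]).IsRotated
          ([z] ++ ((w j).filter (fun p => p ∉ I i)).reverse) := List.isRotated_append
        simpa using this
      have h3 := rot_cons_eq hni h2
      have hsub : ∀ a b, [x, y].Sublist ((w a).filter (fun p => p ∉ I b)) := by
        intro a b
        have h4 := (hwr a hrev).filter (fun p => decide (p ∉ I b))
        have h5 : [x, y].filter (fun p => decide (p ∉ I b)) = [x, y] := by
          simp [hxI b, hyI b]
        rw [h5] at h4
        exact h4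
      have h6 := hsub i j
      have h7 := (hsub j i).reverse
      rw [← h3] at h7
      exact bef_asymm (List.nodup_cons.mp hni).2 h6 (by simpa using h7)
  refine hGLUE A B N F g I (fun _ => []) (fun i => z :: w i) (fun _ => []) hIcard hIdisj ?_ ?_ ?_
    (fun _ _ => List.Perm.refl _) (fun _ _ => List.Perm.refl _) hfilt ?_
  · intro i; simpa using hwn i
  · intro i p; simpa using hwm i p
  · intro i; simpa using hwc i
  · intro i
    rw [length_of_mem (hwn i) (hwm i), hIcard]
    omega

end Pool.Agent.U394.RC
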